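import Pool.Agent.W_MP_c44a15_co.BStar

/-!
Maximum adjacency orderings and the positive semidefinite matrix.
-/

set_option autoImplicit false

namespace Pool.Agent.W_MP_c44a15_co

open Finset

variable {Ys : ℕ → Finset ℕ}

lemma Inj.mono_col {d : ℕ} {f : ℕ → ℕ → ℝ} {R C C' : Finset ℕ} (h : Inj d f R C)
    (hC : C' ⊆ C) : Inj d f R C' := by
  classical
  intro c hc j hj
  have e : ∀ i, ∑ j ∈ C, (if j ∈ C' then c j else 0) * dot d (f j) (f i) =
      ∑ j ∈ C', c j * dot d (f j) (f i) := by
    intro i
    rw [← sum_subset hC]
    · exact sum_congr rfl fun j hj => by rw [if_pos hj]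
    · intro j _ hj
      rw [if_neg hj, zero_mul]
  have h1 := h (fun j => if j ∈ C' then c j else 0) (fun i hi => (e i).trans (hc i hi)) j (hC hj)
  simpa [hj] using h1

lemma edge_ne (hMA : ∀ l, Compat Ys l (Ys l)) {i j d : ℕ} (hij : i < j) (hi : i ∉ Ys j)
    (hd : (Ys j).card + 1 ≤ d) : ∃ h, dot d (F Ys d h i) (F Ys d h j) ≠ 0 := by
  classical
  have hYs : ∀ j, Ys j ⊆ range j := fun j => (hMA j).1
  have hcomp : Compat Ys j (insert i (Ys j)) := by
    refine ⟨insert_subset (mem_range.2 hij) (hYs j), fun j' hj' => ?_⟩
    refine le_trans ((hMA j).2 j' hj') (card_le_card ?_)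
    exact filter_subset_filter _ (subset_insert _ _)
  have hcard : (insert i (Ys j)).card = (Ys j).card + 1 := card_insert_of_notMem hi
  obtain ⟨h, hh⟩ := bstar hMA j d _ _ hcomp hcomp le_rfl (by omega)
  have hYY : Inj d (F Ys d h) (Ys j) (Ys j) := (hh.mono_col (subset_insert _ _)).self
  obtain ⟨c, hc⟩ := exists_solve hYY (F Ys d h i)
  set g : ℕ → ℝ := fun t => F Ys d h i t - ∑ y ∈ Ys j, c y * F Ys d h y t with hg
  have hgb : ∀ b : ℕ → ℝ, dot d g b =
      dot d (F Ys d h i) b - ∑ y ∈ Ys j, c y * dot d (F Ys d h y) b := by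
    intro b
    rw [← dot_sum_left]
    exact dot_sub_left d _ _ b
  have hne : dot d (F Ys d h i) g ≠ 0 := by
    intro h0
    have h1 : dot d g g = 0 := by
      rw [hgb, h0, zero_sub, neg_eq_zero]
      refine sum_eq_zero fun y hy => ?_
      rw [dot_comm, hc y hy, mul_zero]
    have h2 := dot_self_eq_zero h1
    have h3 := hh (fun l => if l = i then 1 else -c l) (by
      intro r _
      have h4 : dot d g (F Ys d h r) = 0 := by
        rw [dot_congr (a' := fun _ => 0) (b' := F Ys d h r) h2 fun _ _ => rfl, dot_zero_left]
      rw [hgb] at h4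
      rw [sum_insert hi, if_pos rfl, one_mul, ← h4, sub_eq_add_neg, ← sum_neg_distrib]
      congr 1
      refine sum_congr rfl fun y hy => ?_
      have : y ≠ i := by rintro rfl; exact hi hy
      rw [if_neg this, neg_mul]) i (mem_insert_self _ _)
    simp at h3
  refine ⟨Function.update h j g, ?_⟩
  rw [F_update hYs d h hij g]
  have : F Ys d (Function.update h j g) j = fun t => (gram d (F Ys d h) (Ys j)).det * g t := by
    funext t
    exact F_update_self hYs d h j g hc t
  rw [this, dot_smul_right]
  exact mul_ne_zero (gram_det_ne hYY) hne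

theorem exists_rep' (hMA : ∀ l, Compat Ys l (Ys l)) (n d : ℕ)
    (hd : ∀ j < n, (Ys j).card + 1 ≤ d) :
    ∃ f : ℕ → ℕ → ℝ, (∀ i j, i < j → j < n → (dot d (f i) (f j) ≠ 0 ↔ i ∉ Ys j)) ∧
      ∀ j < n, Inj d f (Ys j) (Ys j) := by
  classical
  have hYs : ∀ j, Ys j ⊆ range j := fun j => (hMA j).1
  let s : Finset (ℕ × ℕ) := (range n ×ˢ range n).filter fun p => p.1 < p.2 ∧ p.1 ∉ Ys p.2
  let φ : (ℕ × ℕ) ⊕ ℕ → (ℕ → ℕ → ℝ) → ℝ := Sum.elim
    (fun p h => dot d (F Ys d h p.1) (F Ys d h p.2)) fun j => blkDet Ys d (Ys j) (Ys j)
  obtain ⟨h, hh⟩ := exists_common (s.disjSum (range n)) (φ := φ)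
    (fun p _ => by
      rcases p with p | j
      · exact IsPoly.dot d (F_poly hYs d _) (F_poly hYs d _)
      · exact blkDet_poly hYs d _ _)
    (fun p hp => by
      rcases p with p | j
      · rw [inl_mem_disjSum] at hp
        simp only [s, mem_filter, mem_product, mem_range] at hp
        exact edge_ne hMA hp.2.1 hp.2.2 (hd _ hp.1.2)
      · rw [inr_mem_disjSum, mem_range] at hp
        obtain ⟨h, hh⟩ := bstar hMA j d _ _ (hMA j) (hMA j) le_rfl
          (by have := hd j hp; omega)
        exact ⟨h, (blkDet_ne_iff _ _ _ _).2 hh⟩)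
  refine ⟨F Ys d h, fun i j hij hj => ⟨fun hne hi => hne ?_, fun hi => ?_⟩, fun j hj => ?_⟩
  · rw [dot_comm]
    exact F_orth hYs d h hi
  · exact hh (Sum.inl (i, j)) (by
      rw [inl_mem_disjSum]
      simp only [s, mem_filter, mem_product, mem_range]
      exact ⟨⟨by omega, hj⟩, hij, hi⟩)
  · exact (blkDet_ne_iff _ _ _ _).1 (hh (Sum.inr j) (by
      rw [inr_mem_disjSum]
      exact mem_range.2 hj))

/-- Existence of maximum adjacency orderings. -/
lemma exists_ma {n : ℕ} (hn : 0 < n) (adj : Fin n → Fin n → Prop) [DecidableRel adj] (m : ℕ)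
    (hm : m ≤ n) : ∃ v : ℕ → Fin n, (∀ i < m, ∀ j < m, v i = v j → i = j) ∧
      ∀ j < m, ∀ w, (∀ i < j, v i ≠ w) →
        ((range j).filter fun i => adj (v i) w).card ≤
          ((range j).filter fun i => adj (v i) (v j)).card := by
  classical
  induction m with
  | zero => exact ⟨fun _ => ⟨0, hn⟩, fun i hi => absurd hi (Nat.not_lt_zero _),
      fun j hj => absurd hj (Nat.not_lt_zero _)⟩
  | succ m ih =>
    obtain ⟨v, hv1, hv2⟩ := ih (by omega)
    let S : Finset (Fin n) := univ \ (range m).image v
    have hS : S.Nonempty := by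
      rw [← card_pos]
      have h1 : ((range m).image v).card ≤ m := card_image_le.trans (by simp)
      have h2 : S.card = n - ((range m).image v).card := by
        rw [card_sdiff_of_subset (subset_univ _), card_univ, Fintype.card_fin]
      omega
    obtain ⟨w, hwS, hw⟩ := exists_max_image S
      (fun w => ((range m).filter fun i => adj (v i) w).card) hS
    have hwv : ∀ i < m, v i ≠ w := by
      intro i hi h0
      have := (mem_sdiff.1 hwS).2
      exact this (mem_image.2 ⟨i, mem_range.2 hi, h0⟩)
    refine ⟨Function.update v m w, ?_, ?_⟩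
    · intro i hi j hj hij
      by_cases him : i = m <;> by_cases hjm : j = m
      · omega
      · subst him
        rw [Function.update_self, Function.update_of_ne hjm] at hij
        exact absurd hij.symm (hwv j (by omega))
      · subst hjm
        rw [Function.update_self, Function.update_of_ne him] at hij
        exact absurd hij (hwv i (by omega))
      · rw [Function.update_of_ne him, Function.update_of_ne hjm] at hij
        exact hv1 i (by omega) j (by omega) hij
    · intro j hj w' hw'
      have hu : ∀ i < j, Function.update v m w i = v i := fun i hi =>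
        Function.update_of_ne (by omega) _ _
      have e1 : ((range j).filter fun i => adj (Function.update v m w i) w') =
          (range j).filter fun i => adj (v i) w' := by
        refine filter_congr fun i hi => ?_
        rw [hu i (mem_range.1 hi)]
      have e2 : ((range j).filter fun i => adj (Function.update v m w i)
          (Function.update v m w j)) =
          (range j).filter fun i => adj (v i) (Function.update v m w j) := by
        refine filter_congr fun i hi => ?_
        rw [hu i (mem_range.1 hi)]
      rw [e1, e2]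
      have hw'' : ∀ i < j, v i ≠ w' := fun i hi => by rw [← hu i hi]; exact hw' i hi
      by_cases hjm : j = m
      · subst hjm
        rw [Function.update_self]
        refine hw w' ?_
        simp only [S, mem_sdiff, mem_univ, true_and, mem_image, mem_range, not_exists, not_and]
        exact hw''
      · rw [Function.update_of_ne hjm]
        exact hv2 j (by omega) w' hw''

theorem main_sap (n : ℕ) (G : SimpleGraph (Fin n)) [DecidableRel G.Adj] :
    ∃ A : Matrix (Fin n) (Fin n) ℝ,
      A.PosSemidef ∧
      (∀ i j : Fin n, i ≠ j → (A i j ≠ 0 ↔ G.Adj i j)) ∧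
      (∀ X : Matrix (Fin n) (Fin n) ℝ, X.IsSymm →
        (∀ i j : Fin n, (i = j ∨ G.Adj i j) → X i j = 0) → A * X = 0 → X = 0) ∧
      G.minDegree + A.rank ≤ n := by
  classical
  rcases Nat.eq_zero_or_pos n with rfl | hn
  · refine ⟨0, Matrix.PosSemidef.zero, fun i => i.elim0, fun X _ _ _ => ?_, ?_⟩
    · ext i; exact i.elim0
    · simp [SimpleGraph.minDegree]
  obtain ⟨v, hv1, hv2⟩ := exists_ma hn G.Adj n le_rfl
  let Ys : ℕ → Finset ℕ := fun j => (range j).filter fun i => ¬ (j < n ∧ G.Adj (v i) (v j))
  have hMA : ∀ l, Compat Ys l (Ys l) := by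
    intro l
    refine ⟨filter_subset _ _, fun j hj => ?_⟩
    have e1 : (Ys l).filter (· < j) = (range j).filter fun i => ¬ (l < n ∧ G.Adj (v i) (v l)) := by
      ext i
      simp only [Ys, mem_filter, mem_range]
      constructor
      · rintro ⟨⟨_, h2⟩, h3⟩; exact ⟨h3, h2⟩
      · rintro ⟨h1, h2⟩; exact ⟨⟨by omega, h2⟩, h1⟩
    rw [e1]
    by_cases hl : l < n
    · have hjn : j < n := by omega
      have h1 := hv2 j hjn (v l) (fun i hi h0 => by
        have := hv1 i (by omega) l hl h0
        omega)
      have h2 := card_filter_add_card_filter_not (s := range j) fun i => G.Adj (v i) (v j)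
      have h3 := card_filter_add_card_filter_not (s := range j) fun i => G.Adj (v i) (v l)
      simp only [Ys, hjn, hl, true_and]
      omega
    · simp only [Ys, hl, false_and, not_false_eq_true, filter_true]
      exact card_filter_le _ _
  -- the inverse of `v`
  have hinj : Set.InjOn v (range n : Set ℕ) := by
    intro i hi j hj hij
    exact hv1 i (by simpa using hi) j (by simpa using hj) hij
  have himg : (range n).image v = univ := by
    apply eq_univ_of_card
    rw [card_image_of_injOn hinj, card_range, Fintype.card_fin]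
  have hpos : ∀ a : Fin n, ∃ i, i < n ∧ v i = a := by
    intro a
    have := himg ▸ mem_univ a
    obtain ⟨i, hi, hia⟩ := mem_image.1 this
    exact ⟨i, mem_range.1 hi, hia⟩
  choose pos hposn hpos using hpos
  -- the degree bound
  have hdeg : ∀ j < n, (Ys j).card + 1 + G.minDegree ≤ n := by
    intro j hj
    have h1 : (Ys j).image v ∪ {v j} ∪ G.neighborFinset (v j) ⊆ univ := subset_univ _
    have h2 := card_le_card h1
    rw [card_univ, Fintype.card_fin, card_union_of_disjoint, card_union_of_disjoint,
      card_singleton, card_image_of_injOn, SimpleGraph.card_neighborFinset_eq_degree] at h2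
    · have := G.minDegree_le_degree (v j)
      omega
    · intro a ha b hb hab
      have ha' := mem_range.1 (mem_filter.1 (mem_coe.1 ha)).1
      have hb' := mem_range.1 (mem_filter.1 (mem_coe.1 hb)).1
      exact hv1 a (by omega) b (by omega) hab
    · rw [disjoint_singleton_right]
      intro hmem
      obtain ⟨i, hi, hij⟩ := mem_image.1 hmem
      have hi' := mem_range.1 (mem_filter.1 hi).1
      have := hv1 i (by omega) j hj hij
      omega
    · rw [disjoint_left]
      intro a ha hna
      rw [SimpleGraph.mem_neighborFinset] at hna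
      rcases mem_union.1 ha with ha | ha
      · obtain ⟨i, hi, rfl⟩ := mem_image.1 ha
        exact (mem_filter.1 hi).2 ⟨hj, hna.symm⟩
      · rw [mem_singleton] at ha
        subst ha
        exact G.irrefl hna
  have hδ : G.minDegree + 1 ≤ n := by
    have := hdeg 0 hn
    omega
  obtain ⟨f, hf, hfY⟩ := exists_rep' hMA n (n - G.minDegree) (fun j hj => by
    have := hdeg j hj
    omega)
  let M : Matrix (Fin (n - G.minDegree)) (Fin n) ℝ := Matrix.of fun t a => f (pos a) t
  have hM : ∀ a b, (M.conjTranspose * M) a b = dot (n - G.minDegree) (f (pos a)) (f (pos b)) := by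
    intro a b
    simp only [M, Matrix.mul_apply, Matrix.conjTranspose_apply, Matrix.of_apply, star_trivial, dot]
    rw [← Fin.sum_univ_eq_sum_range (fun t => f (pos a) t * f (pos b) t)]
  have hmem : ∀ i j, i < j → j < n → (i ∉ Ys j ↔ G.Adj (v i) (v j)) := by
    intro i j hij hj
    simp only [Ys, mem_filter, mem_range, hij, hj, true_and, not_not]
  refine ⟨M.conjTranspose * M, Matrix.posSemidef_conjTranspose_mul_self M, ?_, ?_, ?_⟩
  · intro a b hab
    rw [hM]
    have hne : pos a ≠ pos b := by
      intro h0
      apply hab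
      rw [← hpos a, ← hpos b, h0]
    rcases lt_or_gt_of_ne hne with h0 | h0
    · rw [hf _ _ h0 (hposn b), hmem _ _ h0 (hposn b), hpos, hpos]
    · rw [dot_comm, hf _ _ h0 (hposn a), hmem _ _ h0 (hposn a), hpos, hpos, G.adj_comm]
  · -- the Strong Arnold Hypothesis
    intro X hXs hX0 hAX
    have hMX : M * X = 0 := (Matrix.conjTranspose_mul_self_mul_eq_zero _ _).1 hAX
    have hsum : ∀ (b : Fin n) (t : ℕ), t < n - G.minDegree →
        ∑ i ∈ range n, X (v i) b * f i t = 0 := by
      intro b t ht
      have h1 := congrFun (congrFun hMX ⟨t, ht⟩) b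
      rw [Matrix.mul_apply] at h1
      simp only [M, Matrix.of_apply, Matrix.zero_apply] at h1
      rw [← h1, ← himg, sum_image hinj]
      refine sum_congr rfl fun i hi => ?_
      have : pos (v i) = i := by
        refine hv1 _ (hposn _) i (mem_range.1 hi) (hpos _)
      rw [this, mul_comm]
    have key : ∀ m, ∀ b : Fin n, n - pos b = m → ∀ a, X a b = 0 := by
      intro m
      induction m using Nat.strong_induction_on with
      | _ m ih =>
        intro b hb a
        have hbn := hposn b
        -- entries of the column outside `Ys (pos b)`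
        have hout : ∀ i < n, i ∉ Ys (pos b) → X (v i) b = 0 := by
          intro i hi hiY
          rcases lt_trichotomy i (pos b) with h0 | h0 | h0
          · have := (hmem i (pos b) h0 hbn).1 hiY
            rw [hpos] at this
            exact hX0 _ _ (Or.inr this)
          · subst h0
            rw [hpos]
            exact hX0 _ _ (Or.inl rfl)
          · have h1 : pos (v i) = i := hv1 _ (hposn _) i hi (hpos _)
            have h2 := ih (n - i) (by omega) (v i) (by rw [h1]) b
            rw [← hXs.apply]
            exact h2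
        have hin : ∀ i ∈ Ys (pos b), X (v i) b = 0 := by
          refine hfY (pos b) hbn (fun i => X (v i) b) fun r _ => ?_
          rw [← dot_sum_left]
          rw [dot_congr (a' := fun _ => 0) (b' := f r) (fun t ht => ?_) fun _ _ => rfl,
            dot_zero_left]
          rw [← hsum b t ht]
          refine sum_subset ?_ ?_
          · intro i hi
            have := mem_range.1 ((hMA (pos b)).1 hi)
            exact mem_range.2 (by omega)
          · intro i hi hiY
            rw [hout i (mem_range.1 hi) hiY, zero_mul]
        rw [← hpos a]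
        by_cases h0 : pos a ∈ Ys (pos b)
        · exact hin _ h0
        · exact hout _ (hposn a) h0
    ext a b
    exact key _ b rfl a
  · have h1 : (M.conjTranspose * M).rank ≤ n - G.minDegree := by
      refine (Matrix.rank_mul_le_right _ _).trans ?_
      refine (Matrix.rank_le_card_height M).trans ?_
      simp
    omega

theorem main (n : ℕ) (G : SimpleGraph (Fin n)) [DecidableRel G.Adj] :
    ∃ A : Matrix (Fin n) (Fin n) ℝ,
      A.PosSemidef ∧
      (∀ i j : Fin n, i ≠ j → (A i j ≠ 0 ↔ G.Adj i j)) ∧
      G.minDegree + A.rank ≤ n := by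
  obtain ⟨A, h1, h2, _, h3⟩ := main_sap n G
  exact ⟨A, h1, h2, h3⟩

end Pool.Agent.W_MP_c44a15_co
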