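import Pool.Agent.W_MP_c44a15_co.Poly

/-!
The rank lemma for maximum adjacency orderings.
-/

set_option autoImplicit false

namespace Pool.Agent.W_MP_c44a15_co

open Finset

variable {Ys : ℕ → Finset ℕ}

/-- A possible set of non-neighbours among the first `k` vertices, compatible with the ordering. -/
def Compat (Ys : ℕ → Finset ℕ) (k : ℕ) (Y : Finset ℕ) : Prop :=
  Y ⊆ range k ∧ ∀ j < k, (Ys j).card ≤ (Y.filter (· < j)).card

lemma Compat.restrict {k : ℕ} {Y : Finset ℕ} (h : Compat Ys (k + 1) Y) :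
    Compat Ys k (Y.filter (· < k)) := by
  refine ⟨fun y hy => mem_range.2 (mem_filter.1 hy).2, fun j hj => ?_⟩
  have : (Y.filter (· < k)).filter (· < j) = Y.filter (· < j) := by
    ext y
    simp only [mem_filter]
    constructor
    · rintro ⟨⟨h1, _⟩, h2⟩; exact ⟨h1, h2⟩
    · rintro ⟨h1, h2⟩; exact ⟨⟨h1, by omega⟩, h2⟩
  rw [this]
  exact h.2 j (by omega)

lemma filter_eq_self {k : ℕ} {Y : Finset ℕ} (h : Compat Ys (k + 1) Y) (hk : k ∉ Y) :
    Y.filter (· < k) = Y := by
  refine filter_true_of_mem fun y hy => ?_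
  have h1 := mem_range.1 (h.1 hy)
  have h2 : y ≠ k := by rintro rfl; exact hk hy
  omega

lemma insert_filter {k : ℕ} {Y : Finset ℕ} (h : Compat Ys (k + 1) Y) (hk : k ∈ Y) :
    insert k (Y.filter (· < k)) = Y := by
  ext y
  simp only [mem_insert, mem_filter]
  constructor
  · rintro (rfl | ⟨h1, _⟩)
    · exact hk
    · exact h1
  · intro hy
    have h1 := mem_range.1 (h.1 hy)
    by_cases h2 : y = k
    · exact Or.inl h2
    · exact Or.inr ⟨hy, by omega⟩

lemma common (hYs : ∀ j, Ys j ⊆ range j) {d : ℕ} (s : Finset (Finset ℕ × Finset ℕ))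
    (h : ∀ p ∈ s, ∃ h, Inj d (F Ys d h) p.1 p.2) :
    ∃ h, ∀ p ∈ s, Inj d (F Ys d h) p.1 p.2 := by
  obtain ⟨x, hx⟩ := exists_common s (φ := fun p => blkDet Ys d p.1 p.2)
    (fun p _ => blkDet_poly hYs d p.1 p.2)
    (fun p hp => by
      obtain ⟨x, hx⟩ := h p hp
      exact ⟨x, (blkDet_ne_iff _ _ _ _).2 hx⟩)
  exact ⟨x, fun p hp => (blkDet_ne_iff _ _ _ _).1 (hx p hp)⟩

lemma F_update (hYs : ∀ j, Ys j ⊆ range j) (d : ℕ) (h : ℕ → ℕ → ℝ) {j k : ℕ} (hj : j < k)
    (g : ℕ → ℝ) : F Ys d (Function.update h k g) j = F Ys d h j :=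
  F_congr hYs d fun i hi => Function.update_of_ne (by omega) _ _

lemma F_update_self (hYs : ∀ j, Ys j ⊆ range j) (d : ℕ) (h : ℕ → ℕ → ℝ) (k : ℕ)
    (g : ℕ → ℝ) (hg : ∀ y ∈ Ys k, dot d g (F Ys d h y) = 0) (t : ℕ) :
    F Ys d (Function.update h k g) k t = (gram d (F Ys d h) (Ys k)).det * g t := by
  rw [F_of_orth hYs, Function.update_self]
  · congr 2
    exact gram_congr fun y hy => F_update hYs d h (mem_range.1 (hYs k hy)) g
  · intro y hy
    rw [F_update hYs d h (mem_range.1 (hYs k hy)) g, Function.update_self, dot_comm]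
    exact hg y hy

/-- Adding the new vertex as a column. -/
lemma col_step (hYs : ∀ j, Ys j ⊆ range j) {d k : ℕ} {R C : Finset ℕ} (hR : R ⊆ range k)
    (hC : C ⊆ range k) (hcard : C.card < R.card)
    (h1 : ∃ h, Inj d (F Ys d h) R C) (h2 : ∃ h, Inj d (F Ys d h) R R)
    (h3 : ∃ h, Inj d (F Ys d h) C (Ys k)) : ∃ h, Inj d (F Ys d h) R (insert k C) := by
  classical
  obtain ⟨h, hh⟩ := common hYs (d := d) {(R, C), (R, R), (C, Ys k)} (by
    intro p hp
    simp only [mem_insert, mem_singleton] at hp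
    rcases hp with rfl | rfl | rfl
    · exact h1
    · exact h2
    · exact h3)
  have hRC : Inj d (F Ys d h) R C := hh (R, C) (by simp)
  have hRR : Inj d (F Ys d h) R R := hh (R, R) (by simp)
  have hCY : Inj d (F Ys d h) C (Ys k) := hh (C, Ys k) (by simp)
  obtain ⟨g, a, hg, ha, hag⟩ := exists_step hRR hCY hcard
  refine ⟨Function.update h k g, ?_⟩
  refine Inj.insert_col (g := g) (a := a) (D := (gram d (F Ys d h) (Ys k)).det) hRC
    (fun hk => absurd (mem_range.1 (hC hk)) (lt_irrefl _)) (gram_det_ne hCY.self) ?_ ?_ ha hag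
  · intro i hi j hj
    rw [F_update hYs d h (mem_range.1 (hR hi)) g, F_update hYs d h (mem_range.1 (hC hj)) g]
  · intro i hi
    rw [F_update hYs d h (mem_range.1 (hR hi)) g]
    have : F Ys d (Function.update h k g) k =
        fun t => (gram d (F Ys d h) (Ys k)).det * g t := by
      funext t
      exact F_update_self hYs d h k g hg t
    rw [this, dot_smul_left, dot_comm]

lemma dot_succ_of {d : ℕ} {a a' b b' : ℕ → ℝ} (h : ∀ t < d, a t = a' t) (h0 : a d = 0)
    (h' : ∀ t < d, b t = b' t) : dot (d + 1) a b = dot d a' b' := by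
  unfold dot
  rw [sum_range_succ, h0, zero_mul, add_zero]
  exact dot_congr h h'

/-- The greedy representation in a smaller dimension. -/
lemma F_lift (hYs : ∀ j, Ys j ⊆ range j) (d k : ℕ) (h h' : ℕ → ℕ → ℝ)
    (h1 : ∀ j < k, ∀ t < d, h' j t = h j t) (h2 : ∀ j < k, h' j d = 0) {j : ℕ} (hj : j < k) :
    (∀ t < d, F Ys (d + 1) h' j t = F Ys d h j t) ∧ F Ys (d + 1) h' j d = 0 := by
  induction j using Nat.strong_induction_on with
  | _ j ih =>
    have ih' : ∀ y ∈ Ys j, (∀ t < d, F Ys (d + 1) h' y t = F Ys d h y t) ∧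
        F Ys (d + 1) h' y d = 0 := fun y hy => by
      have := mem_range.1 (hYs j hy)
      exact ih y this (by omega)
    have hg : gram (d + 1) (F Ys (d + 1) h') (Ys j) = gram d (F Ys d h) (Ys j) := by
      funext a b
      exact dot_succ_of (ih' a a.2).1 (ih' a a.2).2 (ih' b b.2).1
    have hb : (fun y : Ys j => dot (d + 1) (F Ys (d + 1) h' y) (h' j)) =
        fun y : Ys j => dot d (F Ys d h y) (h j) := by
      funext y
      exact dot_succ_of (ih' y y.2).1 (ih' y y.2).2 (h1 j hj)
    constructor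
    · intro t ht
      rw [F_eq hYs, F_eq hYs]
      simp only [pr, hg, hb]
      rw [h1 j hj t ht]
      congr 1
      exact sum_congr rfl fun y _ => by rw [(ih' y y.2).1 t ht]
    · rw [F_eq hYs]
      simp only [pr, hg, hb]
      rw [h2 j hj, mul_zero, zero_sub, neg_eq_zero]
      exact sum_eq_zero fun y _ => by rw [(ih' y y.2).2, mul_zero]

/-- Adding the new vertex as a row and as a column. -/
lemma both_step (hYs : ∀ j, Ys j ⊆ range j) {d k : ℕ} {R C : Finset ℕ} (hR : R ⊆ range k)
    (hC : C ⊆ range k) (h1 : ∃ h, Inj d (F Ys d h) R C)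
    (h3 : ∃ h, Inj d (F Ys d h) R (Ys k)) :
    ∃ h, Inj (d + 1) (F Ys (d + 1) h) (insert k R) (insert k C) := by
  classical
  obtain ⟨h, hh⟩ := common hYs (d := d) {(R, C), (R, Ys k)} (by
    intro p hp
    simp only [mem_insert, mem_singleton] at hp
    rcases hp with rfl | rfl
    · exact h1
    · exact h3)
  have hRC : Inj d (F Ys d h) R C := hh (R, C) (by simp)
  have hYY : Inj d (F Ys d h) (Ys k) (Ys k) := (hh (R, Ys k) (by simp)).self
  let h' : ℕ → ℕ → ℝ := fun j t =>
    if j = k then (if t = d then 1 else 0) else if t < d then h j t else 0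
  have hl : ∀ j < k, (∀ t < d, F Ys (d + 1) h' j t = F Ys d h j t) ∧
      F Ys (d + 1) h' j d = 0 := by
    intro j hj
    refine F_lift hYs d k h h' ?_ ?_ hj
    · intro j hj t ht
      have : j ≠ k := by omega
      simp [h', this, ht]
    · intro j hj
      have : j ≠ k := by omega
      simp [h', this]
  have hYk : ∀ y ∈ Ys k, y < k := fun y hy => mem_range.1 (hYs k hy)
  have hhk : ∀ t < d, h' k t = 0 := by
    intro t ht
    have : t ≠ d := by omega
    simp [h', this]
  have hg : gram (d + 1) (F Ys (d + 1) h') (Ys k) = gram d (F Ys d h) (Ys k) := by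
    funext a b
    exact dot_succ_of (hl a (hYk a a.2)).1 (hl a (hYk a a.2)).2 (hl b (hYk b b.2)).1
  set D := (gram d (F Ys d h) (Ys k)).det with hD
  have hD0 : D ≠ 0 := gram_det_ne hYY
  have hFk : ∀ t, F Ys (d + 1) h' k t = D * h' k t := by
    intro t
    rw [F_of_orth hYs, hg]
    intro y hy
    rw [dot_succ_of (a' := F Ys (d + 1) h' y) (b' := fun _ => 0) (fun _ _ => rfl)
      (hl y (hYk y hy)).2 hhk, dot_comm, dot_zero_left]
  have hFk0 : ∀ t < d, F Ys (d + 1) h' k t = 0 := fun t ht => by rw [hFk, hhk t ht, mul_zero]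
  have hFkd : F Ys (d + 1) h' k d = D := by rw [hFk]; simp [h']
  have hort : ∀ i < k, dot (d + 1) (F Ys (d + 1) h' i) (F Ys (d + 1) h' k) = 0 := by
    intro i hi
    rw [dot_succ_of (a' := F Ys (d + 1) h' i) (b' := fun _ => 0) (fun _ _ => rfl)
      (hl i hi).2 hFk0, dot_comm, dot_zero_left]
  refine ⟨h', hRC.insert_both (fun hk => absurd (mem_range.1 (hC hk)) (lt_irrefl _)) ?_ ?_ ?_ ?_⟩
  · intro i hi j hj
    have hi' := hl i (mem_range.1 (hR hi))
    have hj' := hl j (mem_range.1 (hC hj))
    exact dot_succ_of hj'.1 hj'.2 hi'.1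
  · intro i hi
    rw [dot_comm]
    exact hort i (mem_range.1 (hR hi))
  · intro j hj
    exact hort j (mem_range.1 (hC hj))
  · unfold dot
    rw [sum_range_succ, sum_eq_zero fun t ht => by rw [hFk0 t (mem_range.1 ht), zero_mul],
      zero_add, hFkd]
    exact mul_ne_zero hD0 hD0

theorem bstar (hMA : ∀ l, Compat Ys l (Ys l)) : ∀ (k d : ℕ) (R C : Finset ℕ),
    Compat Ys k R → Compat Ys k C → C.card ≤ R.card → R.card ≤ d →
    ∃ h, Inj d (F Ys d h) R C := by
  have hYs : ∀ j, Ys j ⊆ range j := fun j => (hMA j).1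
  intro k
  induction k with
  | zero =>
    intro d R C _ hC _ _
    refine ⟨fun _ _ => 0, fun c _ j hj => ?_⟩
    exact absurd (mem_range.1 (hC.1 hj)) (Nat.not_lt_zero _)
  | succ k ih =>
    intro d R C hR hC hCR hRd
    have hR' := hR.restrict
    have hC' := hC.restrict
    have hYR : (Ys k).card ≤ (R.filter (· < k)).card := hR.2 k (Nat.lt_succ_self k)
    have hYC : (Ys k).card ≤ (C.filter (· < k)).card := hC.2 k (Nat.lt_succ_self k)
    have hkR' : k ∉ R.filter (· < k) := by simp
    have hkC' : k ∉ C.filter (· < k) := by simp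
    by_cases hkR : k ∈ R
    · have hRe := insert_filter hR hkR
      have hRc : R.card = (R.filter (· < k)).card + 1 := by
        conv_lhs => rw [← hRe]
        exact card_insert_of_notMem hkR'
      by_cases hkC : k ∈ C
      · -- both
        have hCe := insert_filter hC hkC
        have hCc : C.card = (C.filter (· < k)).card + 1 := by
          conv_lhs => rw [← hCe]
          exact card_insert_of_notMem hkC'
        obtain ⟨d', rfl⟩ : ∃ d', d = d' + 1 := ⟨d - 1, by omega⟩
        rw [← hRe, ← hCe]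
        exact both_step hYs hR'.1 hC'.1 (ih d' _ _ hR' hC' (by omega) (by omega))
          (ih d' _ _ hR' (hMA k) hYR (by omega))
      · -- only the row
        have hCe := filter_eq_self hC hkC
        rw [hCe] at hC' hYC
        rcases Nat.lt_or_ge (R.filter (· < k)).card C.card with hlt | hle
        · have hcard : R.card = C.card := by omega
          obtain ⟨h, hh⟩ := col_step hYs (d := d) hC'.1 hR'.1 hlt
            (ih d _ _ hC' hR' (by omega) (by omega)) (ih d _ _ hC' hC' le_rfl (by omega))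
            (ih d _ _ hR' (hMA k) hYR (by omega))
          rw [hRe] at hh
          exact ⟨h, hh.transpose hcard.symm⟩
        · obtain ⟨h, hh⟩ := ih d _ _ hR' hC' hle (by omega)
          exact ⟨h, hh.mono (filter_subset _ _)⟩
    · have hRe := filter_eq_self hR hkR
      rw [hRe] at hR' hYR
      by_cases hkC : k ∈ C
      · -- only the column
        have hCe := insert_filter hC hkC
        have hCc : C.card = (C.filter (· < k)).card + 1 := by
          conv_lhs => rw [← hCe]
          exact card_insert_of_notMem hkC'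
        rw [← hCe]
        exact col_step hYs hR'.1 hC'.1 (by omega) (ih d _ _ hR' hC' (by omega) hRd)
          (ih d _ _ hR' hR' le_rfl hRd) (ih d _ _ hC' (hMA k) hYC (by omega))
      · have hCe := filter_eq_self hC hkC
        rw [hCe] at hC'
        exact ih d _ _ hR' hC' hCR hRd

end Pool.Agent.W_MP_c44a15_co
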