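import Mathlib

/-!
Linear algebra for families of vectors `f : ℕ → (ℕ → ℝ)` with the dot product on the first `d`
coordinates.
-/

set_option autoImplicit false

namespace Pool.Agent.W_MP_c44a15_co

open Finset

/-- Dot product on the first `d` coordinates. -/
def dot (d : ℕ) (a b : ℕ → ℝ) : ℝ := ∑ t ∈ range d, a t * b t

lemma dot_comm (d : ℕ) (a b : ℕ → ℝ) : dot d a b = dot d b a :=
  sum_congr rfl fun _ _ => mul_comm _ _

lemma dot_congr {d : ℕ} {a a' b b' : ℕ → ℝ} (h : ∀ t < d, a t = a' t) (h' : ∀ t < d, b t = b' t) :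
    dot d a b = dot d a' b' :=
  sum_congr rfl fun t ht => by rw [h t (mem_range.1 ht), h' t (mem_range.1 ht)]

lemma dot_zero_left (d : ℕ) (b : ℕ → ℝ) : dot d (fun _ => 0) b = 0 := by simp [dot]

lemma dot_add_left (d : ℕ) (a a' b : ℕ → ℝ) :
    dot d (fun t => a t + a' t) b = dot d a b + dot d a' b := by
  simp [dot, add_mul, sum_add_distrib]

lemma dot_sub_left (d : ℕ) (a a' b : ℕ → ℝ) :
    dot d (fun t => a t - a' t) b = dot d a b - dot d a' b := by
  simp [dot, sub_mul, sum_sub_distrib]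

lemma dot_smul_left (d : ℕ) (c : ℝ) (a b : ℕ → ℝ) :
    dot d (fun t => c * a t) b = c * dot d a b := by
  simp [dot, mul_sum, mul_assoc]

lemma dot_smul_right (d : ℕ) (c : ℝ) (a b : ℕ → ℝ) :
    dot d b (fun t => c * a t) = c * dot d b a := by
  rw [dot_comm, dot_smul_left, dot_comm]

lemma dot_sum_left {ι : Type*} (d : ℕ) (s : Finset ι) (c : ι → ℝ) (f : ι → ℕ → ℝ) (b : ℕ → ℝ) :
    dot d (fun t => ∑ j ∈ s, c j * f j t) b = ∑ j ∈ s, c j * dot d (f j) b := by
  simp only [dot, sum_mul, mul_sum]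
  rw [sum_comm]
  refine sum_congr rfl fun j _ => sum_congr rfl fun t _ => ?_
  ring

lemma dot_self_eq_zero {d : ℕ} {a : ℕ → ℝ} (h : dot d a a = 0) : ∀ t < d, a t = 0 := by
  intro t ht
  have := (sum_eq_zero_iff_of_nonneg fun t _ => mul_self_nonneg (a t)).1 h t (mem_range.2 ht)
  exact mul_self_eq_zero.1 this

/-- The Gram block with rows `R` and columns `C` has independent columns. -/
def Inj (d : ℕ) (f : ℕ → ℕ → ℝ) (R C : Finset ℕ) : Prop :=
  ∀ c : ℕ → ℝ, (∀ i ∈ R, ∑ j ∈ C, c j * dot d (f j) (f i) = 0) → ∀ j ∈ C, c j = 0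

lemma Inj.mono {d : ℕ} {f : ℕ → ℕ → ℝ} {R R' C : Finset ℕ} (h : Inj d f R C) (hR : R ⊆ R') :
    Inj d f R' C := fun c hc => h c fun i hi => hc i (hR hi)

lemma Inj.congr {d : ℕ} {f f' : ℕ → ℕ → ℝ} {R C : Finset ℕ} (h : Inj d f R C)
    (hf : ∀ i ∈ R, ∀ j ∈ C, dot d (f' j) (f' i) = dot d (f j) (f i)) : Inj d f' R C := by
  intro c hc
  refine h c fun i hi => ?_
  rw [← hc i hi]
  exact sum_congr rfl fun j hj => by rw [hf i hi j hj]

lemma Inj.self {d : ℕ} {f : ℕ → ℕ → ℝ} {C Y : Finset ℕ} (h : Inj d f C Y) : Inj d f Y Y := by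
  intro c hc
  -- the combination has zero norm
  set z : ℕ → ℝ := fun t => ∑ j ∈ Y, c j * f j t with hz
  have h1 : dot d z z = 0 := by
    rw [hz, dot_sum_left]
    refine sum_eq_zero fun j hj => ?_
    rw [dot_comm, dot_sum_left, hc j hj, mul_zero]
  have h2 := dot_self_eq_zero h1
  refine h c fun i _ => ?_
  rw [← dot_sum_left, dot_congr (a' := fun _ => 0) (b' := f i) h2 fun _ _ => rfl, dot_zero_left]

/-- The linear map of a Gram block. -/
noncomputable def blk (d : ℕ) (f : ℕ → ℕ → ℝ) (R C : Finset ℕ) : (C → ℝ) →ₗ[ℝ] (R → ℝ) :=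
  Matrix.mulVecLin (Matrix.of fun (i : R) (j : C) => dot d (f j) (f i))

lemma blk_apply (d : ℕ) (f : ℕ → ℕ → ℝ) (R C : Finset ℕ) (c : C → ℝ) (i : R) :
    blk d f R C c i = ∑ j : C, c j * dot d (f j) (f i) := by
  simp only [blk, Matrix.mulVecLin_apply, Matrix.mulVec, dotProduct, Matrix.of_apply]
  exact sum_congr rfl fun j _ => mul_comm _ _

lemma inj_iff (d : ℕ) (f : ℕ → ℕ → ℝ) (R C : Finset ℕ) :
    Inj d f R C ↔ Function.Injective (blk d f R C) := by
  rw [injective_iff_map_eq_zero]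
  constructor
  · intro h c hc
    have h1 := h (fun j => if hj : j ∈ C then c ⟨j, hj⟩ else 0) (by
      intro i hi
      have h2 := congrFun hc ⟨i, hi⟩
      rw [blk_apply] at h2
      rw [← sum_coe_sort C]
      simpa using h2)
    funext j
    have := h1 j j.2
    simpa using this
  · intro h c hc j hj
    have h1 := h (fun j => c j) (by
      funext i
      rw [blk_apply]
      have := hc i i.2
      rw [← sum_coe_sort C] at this
      exact this)
    exact congrFun h1 ⟨j, hj⟩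

lemma Inj.transpose {d : ℕ} {f : ℕ → ℕ → ℝ} {R C : Finset ℕ} (h : Inj d f R C)
    (hc : R.card = C.card) : Inj d f C R := by
  have hsurj : Function.Surjective (blk d f R C) := by
    refine (LinearMap.injective_iff_surjective_of_finrank_eq_finrank ?_).1 ((inj_iff _ _ _ _).1 h)
    simp [hc]
  intro c hc0 i hi
  obtain ⟨b, hb⟩ := hsurj fun i => c i
  have h1 : ∑ i : R, c i * c i = 0 := by
    calc ∑ i : R, c i * c i = ∑ i : R, c i * blk d f R C b i := by rw [hb]
      _ = ∑ i : R, ∑ j : C, b j * (c i * dot d (f i) (f j)) := by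
          refine sum_congr rfl fun i _ => ?_
          rw [blk_apply, mul_sum]
          refine sum_congr rfl fun j _ => ?_
          rw [dot_comm d (f j)]; ring
      _ = ∑ j : C, b j * ∑ i : R, c i * dot d (f i) (f j) := by
          rw [sum_comm]; simp_rw [mul_sum]
      _ = 0 := by
          refine sum_eq_zero fun j _ => ?_
          have := hc0 j j.2
          rw [← sum_coe_sort R] at this
          rw [this, mul_zero]
  have h2 := (sum_eq_zero_iff_of_nonneg fun (i : R) _ => mul_self_nonneg (c i)).1 h1 ⟨i, hi⟩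
    (mem_univ _)
  exact mul_self_eq_zero.1 h2

lemma exists_ker {d : ℕ} {f : ℕ → ℕ → ℝ} {R C : Finset ℕ} (hc : R.card < C.card) :
    ∃ a : ℕ → ℝ, (∃ j ∈ C, a j ≠ 0) ∧ ∀ i ∈ R, ∑ j ∈ C, a j * dot d (f j) (f i) = 0 := by
  have hker : LinearMap.ker (blk d f R C) ≠ ⊥ := by
    refine LinearMap.ker_ne_bot_of_finrank_lt ?_
    simpa using hc
  obtain ⟨c, hc1, hc2⟩ := (Submodule.ne_bot_iff _).1 hker
  refine ⟨fun j => if hj : j ∈ C then c ⟨j, hj⟩ else 0, ?_, ?_⟩
  · obtain ⟨j, hj⟩ := Function.ne_iff.1 hc2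
    exact ⟨j, j.2, by simpa using hj⟩
  · intro i hi
    have h2 := congrFun (LinearMap.mem_ker.1 hc1) ⟨i, hi⟩
    rw [blk_apply] at h2
    rw [← sum_coe_sort C]
    simpa using h2

lemma exists_solve {d : ℕ} {f : ℕ → ℕ → ℝ} {Y : Finset ℕ} (h : Inj d f Y Y) (z : ℕ → ℝ) :
    ∃ c : ℕ → ℝ, ∀ i ∈ Y, dot d (fun t => z t - ∑ j ∈ Y, c j * f j t) (f i) = 0 := by
  have hsurj : Function.Surjective (blk d f Y Y) :=
    (LinearMap.injective_iff_surjective_of_finrank_eq_finrank rfl).1 ((inj_iff _ _ _ _).1 h)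
  obtain ⟨b, hb⟩ := hsurj fun i => dot d z (f i)
  refine ⟨fun j => if hj : j ∈ Y then b ⟨j, hj⟩ else 0, fun i hi => ?_⟩
  have h2 := congrFun hb ⟨i, hi⟩
  rw [blk_apply] at h2
  rw [dot_sub_left, dot_sum_left, ← sum_coe_sort Y, sub_eq_zero, ← h2]
  refine sum_congr rfl fun j _ => ?_
  simp

/-- The key step. -/
lemma exists_step {d : ℕ} {f : ℕ → ℕ → ℝ} {R C Y : Finset ℕ} (hRR : Inj d f R R)
    (hCY : Inj d f C Y) (hcard : C.card < R.card) :
    ∃ g a : ℕ → ℝ, (∀ y ∈ Y, dot d g (f y) = 0) ∧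
      (∀ j ∈ C, ∑ i ∈ R, a i * dot d (f i) (f j) = 0) ∧
      ∑ i ∈ R, a i * dot d (f i) g ≠ 0 := by
  obtain ⟨a, ⟨i₀, hi₀, ha₀⟩, ha⟩ := exists_ker (d := d) (f := f) hcard
  set z : ℕ → ℝ := fun t => ∑ i ∈ R, a i * f i t with hz
  obtain ⟨c, hc⟩ := exists_solve hCY.self z
  set g : ℕ → ℝ := fun t => z t - ∑ j ∈ Y, c j * f j t with hg
  refine ⟨g, a, hc, ha, ?_⟩
  intro hzero
  rw [← dot_sum_left] at hzero
  have hzg : dot d z g = 0 := hzero
  have hgb : ∀ b : ℕ → ℝ, dot d g b = dot d z b - ∑ j ∈ Y, c j * dot d (f j) b := by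
    intro b
    rw [← dot_sum_left]
    exact dot_sub_left d z _ b
  -- `dot z g = dot g g`
  have h1 : dot d g g = 0 := by
    rw [hgb, hzg, zero_sub, neg_eq_zero]
    refine sum_eq_zero fun j hj => ?_
    rw [dot_comm, hc j hj, mul_zero]
  have h2 := dot_self_eq_zero h1
  -- so `z` is the combination of the `f y`
  have h3 : ∀ b : ℕ → ℝ, dot d z b = ∑ j ∈ Y, c j * dot d (f j) b := by
    intro b
    have h4 : dot d g b = 0 := by
      rw [dot_congr (a' := fun _ => 0) (b' := b) h2 fun _ _ => rfl, dot_zero_left]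
    rw [hgb] at h4
    linarith
  have h4 : ∀ j ∈ Y, c j = 0 := by
    refine hCY c fun i hi => ?_
    rw [← h3, hz, dot_sum_left]
    exact ha i hi
  have h5 : ∀ b : ℕ → ℝ, dot d z b = 0 := by
    intro b
    rw [h3]
    exact sum_eq_zero fun j hj => by rw [h4 j hj, zero_mul]
  exact ha₀ (hRR a (fun i _ => by rw [← dot_sum_left]; exact h5 _) i₀ hi₀)

/-- Adding a column. -/
lemma Inj.insert_col {d : ℕ} {f f' : ℕ → ℕ → ℝ} {R C : Finset ℕ} {u : ℕ} {g a : ℕ → ℝ} {D : ℝ}
    (h : Inj d f R C) (hu : u ∉ C) (hD : D ≠ 0)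
    (hf' : ∀ i ∈ R, ∀ j ∈ C, dot d (f' j) (f' i) = dot d (f j) (f i))
    (hf'u : ∀ i ∈ R, dot d (f' u) (f' i) = D * dot d (f i) g)
    (ha : ∀ j ∈ C, ∑ i ∈ R, a i * dot d (f i) (f j) = 0)
    (hag : ∑ i ∈ R, a i * dot d (f i) g ≠ 0) : Inj d f' R (insert u C) := by
  intro c hc
  have hc' : ∀ i ∈ R, c u * (D * dot d (f i) g) + ∑ j ∈ C, c j * dot d (f j) (f i) = 0 := by
    intro i hi
    have := hc i hi
    rw [sum_insert hu, hf'u i hi] at this
    rw [← this]
    congr 1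
    exact sum_congr rfl fun j hj => by rw [hf' i hi j hj]
  have h1 : ∑ i ∈ R, a i * (c u * (D * dot d (f i) g) + ∑ j ∈ C, c j * dot d (f j) (f i)) = 0 :=
    sum_eq_zero fun i hi => by rw [hc' i hi, mul_zero]
  have h2 : ∑ i ∈ R, a i * (c u * (D * dot d (f i) g) + ∑ j ∈ C, c j * dot d (f j) (f i)) =
      c u * D * ∑ i ∈ R, a i * dot d (f i) g +
        ∑ j ∈ C, c j * ∑ i ∈ R, a i * dot d (f i) (f j) := by
    simp only [mul_add, sum_add_distrib, mul_sum]
    congr 1
    · exact sum_congr rfl fun i _ => by ring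
    · rw [sum_comm]
      refine sum_congr rfl fun j _ => sum_congr rfl fun i _ => ?_
      rw [dot_comm d (f j)]; ring
  rw [h2, sum_eq_zero (s := C) fun j hj => by rw [ha j hj, mul_zero], add_zero] at h1
  have h3 : c u = 0 := by
    rcases mul_eq_zero.1 h1 with h4 | h4
    · rcases mul_eq_zero.1 h4 with h5 | h5
      · exact h5
      · exact absurd h5 hD
    · exact absurd h4 hag
  have h4 : ∀ j ∈ C, c j = 0 := by
    refine h c fun i hi => ?_
    have := hc' i hi
    rwa [h3, zero_mul, zero_add] at this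
  intro j hj
  rcases mem_insert.1 hj with rfl | hj
  · exact h3
  · exact h4 j hj

/-- Adding a row and a column from a new dimension. -/
lemma Inj.insert_both {d d' : ℕ} {f f' : ℕ → ℕ → ℝ} {R C : Finset ℕ} {u : ℕ}
    (h : Inj d f R C) (hu : u ∉ C)
    (hf' : ∀ i ∈ R, ∀ j ∈ C, dot d' (f' j) (f' i) = dot d (f j) (f i))
    (hf'R : ∀ i ∈ R, dot d' (f' u) (f' i) = 0)
    (hf'C : ∀ j ∈ C, dot d' (f' j) (f' u) = 0)
    (hf'u : dot d' (f' u) (f' u) ≠ 0) : Inj d' f' (insert u R) (insert u C) := by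
  intro c hc
  have h4 : ∀ j ∈ C, c j = 0 := by
    refine h c fun i hi => ?_
    have := hc i (mem_insert_of_mem hi)
    rw [sum_insert hu, hf'R i hi, mul_zero, zero_add] at this
    rw [← this]
    exact sum_congr rfl fun j hj => by rw [hf' i hi j hj]
  have h3 : c u = 0 := by
    have := hc u (mem_insert_self _ _)
    rw [sum_insert hu, sum_eq_zero (s := C) fun j hj => by rw [h4 j hj, zero_mul],
      add_zero] at this
    exact (mul_eq_zero.1 this).resolve_right hf'u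
  intro j hj
  rcases mem_insert.1 hj with rfl | hj
  · exact h3
  · exact h4 j hj

end Pool.Agent.W_MP_c44a15_co
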