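import Pool.Agent.W_MP_c44a15_co.LinAlg

/-!
Polynomial functions of the parameters, the projected vectors, and the greedy representation.
-/

set_option autoImplicit false

namespace Pool.Agent.W_MP_c44a15_co

open Finset

/-- Polynomial functions of a doubly indexed family of parameters. -/
def IsPoly (φ : (ℕ → ℕ → ℝ) → ℝ) : Prop :=
  ∃ p : MvPolynomial (ℕ × ℕ) ℝ, ∀ h, φ h = MvPolynomial.eval (fun s => h s.1 s.2) p

lemma IsPoly.const (c : ℝ) : IsPoly fun _ => c := ⟨MvPolynomial.C c, fun h => by simp⟩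

lemma IsPoly.coord (i j : ℕ) : IsPoly fun h => h i j := ⟨MvPolynomial.X (i, j), fun h => by simp⟩

lemma IsPoly.add {φ ψ : (ℕ → ℕ → ℝ) → ℝ} (h1 : IsPoly φ) (h2 : IsPoly ψ) :
    IsPoly fun h => φ h + ψ h := by
  obtain ⟨p, hp⟩ := h1
  obtain ⟨q, hq⟩ := h2
  exact ⟨p + q, fun h => by show φ h + ψ h = _; rw [hp, hq, map_add]⟩

lemma IsPoly.sub {φ ψ : (ℕ → ℕ → ℝ) → ℝ} (h1 : IsPoly φ) (h2 : IsPoly ψ) :
    IsPoly fun h => φ h - ψ h := by
  obtain ⟨p, hp⟩ := h1
  obtain ⟨q, hq⟩ := h2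
  exact ⟨p - q, fun h => by show φ h - ψ h = _; rw [hp, hq, map_sub]⟩

lemma IsPoly.mul {φ ψ : (ℕ → ℕ → ℝ) → ℝ} (h1 : IsPoly φ) (h2 : IsPoly ψ) :
    IsPoly fun h => φ h * ψ h := by
  obtain ⟨p, hp⟩ := h1
  obtain ⟨q, hq⟩ := h2
  exact ⟨p * q, fun h => by show φ h * ψ h = _; rw [hp, hq, map_mul]⟩

lemma IsPoly.sum {ι : Type*} (s : Finset ι) {φ : ι → (ℕ → ℕ → ℝ) → ℝ}
    (h : ∀ i ∈ s, IsPoly (φ i)) : IsPoly fun x => ∑ i ∈ s, φ i x := by
  classical
  choose! p hp using h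
  refine ⟨∑ i ∈ s, p i, fun x => ?_⟩
  rw [map_sum]
  exact sum_congr rfl fun i hi => hp i hi x

lemma IsPoly.prod {ι : Type*} (s : Finset ι) {φ : ι → (ℕ → ℕ → ℝ) → ℝ}
    (h : ∀ i ∈ s, IsPoly (φ i)) : IsPoly fun x => ∏ i ∈ s, φ i x := by
  classical
  choose! p hp using h
  refine ⟨∏ i ∈ s, p i, fun x => ?_⟩
  rw [map_prod]
  exact prod_congr rfl fun i hi => hp i hi x

lemma IsPoly.det {ι : Type*} [Fintype ι] [DecidableEq ι] {M : (ℕ → ℕ → ℝ) → Matrix ι ι ℝ}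
    (h : ∀ i j, IsPoly fun x => M x i j) : IsPoly fun x => (M x).det := by
  simp only [Matrix.det_apply']
  refine IsPoly.sum _ fun σ _ => ?_
  exact (IsPoly.const _).mul (IsPoly.prod _ fun i _ => h _ _)

lemma IsPoly.adjugate {ι : Type*} [Fintype ι] [DecidableEq ι] {M : (ℕ → ℕ → ℝ) → Matrix ι ι ℝ}
    (h : ∀ i j, IsPoly fun x => M x i j) (i j : ι) : IsPoly fun x => (M x).adjugate i j := by
  simp only [Matrix.adjugate_apply]
  refine IsPoly.det fun a b => ?_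
  by_cases hab : a = j
  · subst hab
    simp only [Matrix.updateRow_self]
    exact IsPoly.const _
  · simp only [Matrix.updateRow_ne hab]
    exact h a b

lemma IsPoly.dot (d : ℕ) {v w : (ℕ → ℕ → ℝ) → ℕ → ℝ} (hv : ∀ t, IsPoly fun x => v x t)
    (hw : ∀ t, IsPoly fun x => w x t) :
    IsPoly fun x => Pool.Agent.W_MP_c44a15_co.dot d (v x) (w x) :=
  IsPoly.sum _ fun t _ => (hv t).mul (hw t)

/-- Finitely many polynomial functions, none of them identically zero, have a common point where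
they do not vanish. -/
lemma exists_common {ι : Type*} (s : Finset ι) {φ : ι → (ℕ → ℕ → ℝ) → ℝ}
    (h : ∀ i ∈ s, IsPoly (φ i)) (hne : ∀ i ∈ s, ∃ x, φ i x ≠ 0) :
    ∃ x, ∀ i ∈ s, φ i x ≠ 0 := by
  classical
  choose! p hp using h
  have h1 : ∏ i ∈ s, p i ≠ 0 := by
    refine prod_ne_zero_iff.2 fun i hi h0 => ?_
    obtain ⟨x, hx⟩ := hne i hi
    rw [hp i hi, h0, map_zero] at hx
    exact hx rfl
  have h2 : ∃ y : ℕ × ℕ → ℝ, MvPolynomial.eval y (∏ i ∈ s, p i) ≠ 0 := by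
    by_contra hcon
    push Not at hcon
    exact h1 (MvPolynomial.funext fun y => by rw [hcon y, map_zero])
  obtain ⟨y, hy⟩ := h2
  rw [map_prod] at hy
  refine ⟨fun i j => y (i, j), fun i hi => ?_⟩
  rw [hp i hi]
  exact prod_ne_zero_iff.1 hy i hi

/-- Gram matrix. -/
def gram (d : ℕ) (v : ℕ → ℕ → ℝ) (Y : Finset ℕ) : Matrix Y Y ℝ := fun i j => dot d (v i) (v j)

/-- A multiple of the orthogonal projection of `a` to the complement of the vectors `v y`. -/
noncomputable def pr (d : ℕ) (v : ℕ → ℕ → ℝ) (Y : Finset ℕ) (a : ℕ → ℝ) : ℕ → ℝ := fun t =>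
  (gram d v Y).det * a t -
    ∑ i : Y, ((gram d v Y).adjugate.mulVec fun j : Y => dot d (v j) a) i * v i t

lemma gram_congr {d : ℕ} {v v' : ℕ → ℕ → ℝ} {Y : Finset ℕ} (h : ∀ y ∈ Y, v y = v' y) :
    gram d v Y = gram d v' Y := by
  funext i j
  simp only [gram, h i i.2, h j j.2]

lemma pr_congr {d : ℕ} {v v' : ℕ → ℕ → ℝ} {Y : Finset ℕ} (h : ∀ y ∈ Y, v y = v' y)
    (a : ℕ → ℝ) : pr d v Y a = pr d v' Y a := by
  funext t
  have h2 : (fun j : Y => dot d (v j) a) = fun j : Y => dot d (v' j) a := by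
    funext j; rw [h j j.2]
  simp only [pr, gram_congr h, h2]
  congr 1
  exact sum_congr rfl fun i _ => by rw [h i i.2]

lemma pr_orth (d : ℕ) (v : ℕ → ℕ → ℝ) (Y : Finset ℕ) (a : ℕ → ℝ) {y : ℕ} (hy : y ∈ Y) :
    dot d (pr d v Y a) (v y) = 0 := by
  have h1 : dot d (pr d v Y a) (v y) = (gram d v Y).det * dot d a (v y) -
      ∑ i : Y, ((gram d v Y).adjugate.mulVec fun j : Y => dot d (v j) a) i * dot d (v i) (v y) := by
    rw [← dot_smul_left, ← dot_sum_left (f := fun i : Y => v i), ← dot_sub_left]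
    rfl
  rw [h1]
  have h2 : ∑ i : Y, ((gram d v Y).adjugate.mulVec fun j : Y => dot d (v j) a) i *
      dot d (v i) (v y) =
      ((gram d v Y).mulVec ((gram d v Y).adjugate.mulVec fun j : Y => dot d (v j) a)) ⟨y, hy⟩ := by
    simp only [Matrix.mulVec, dotProduct, gram]
    refine sum_congr rfl fun i _ => ?_
    rw [dot_comm d (v i), mul_comm]
  rw [h2, Matrix.mulVec_mulVec, Matrix.mul_adjugate, Matrix.smul_mulVec, Matrix.one_mulVec]
  simp [dot_comm d a]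

lemma pr_of_orth {d : ℕ} {v : ℕ → ℕ → ℝ} {Y : Finset ℕ} {a : ℕ → ℝ}
    (h : ∀ y ∈ Y, dot d (v y) a = 0) (t : ℕ) : pr d v Y a t = (gram d v Y).det * a t := by
  have h2 : (fun j : Y => dot d (v j) a) = 0 := by
    funext j; exact h j j.2
  simp [pr, h2]

lemma gram_det_ne {d : ℕ} {v : ℕ → ℕ → ℝ} {Y : Finset ℕ} (h : Inj d v Y Y) :
    (gram d v Y).det ≠ 0 := by
  intro h0
  obtain ⟨c, hc, hc0⟩ := Matrix.exists_mulVec_eq_zero_iff.2 h0
  refine hc ((injective_iff_map_eq_zero _).1 ((inj_iff _ _ _ _).1 h) c ?_)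
  funext i
  rw [blk_apply]
  have := congrFun hc0 i
  simp only [Matrix.mulVec, dotProduct, gram, Pi.zero_apply] at this
  rw [Pi.zero_apply, ← this]
  refine sum_congr rfl fun j _ => ?_
  rw [dot_comm d (v i), mul_comm]

/-- The greedy representation with parameters `h`; `Ys j` is the set of the earlier vertices to
which the `j`-th vector has to be orthogonal. -/
noncomputable def F (Ys : ℕ → Finset ℕ) (d : ℕ) (h : ℕ → ℕ → ℝ) (j : ℕ) : ℕ → ℝ :=
  pr d (fun i => if _ : i < j then F Ys d h i else fun _ => 0) (Ys j) (h j)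
termination_by j

variable {Ys : ℕ → Finset ℕ}

lemma F_eq (hYs : ∀ j, Ys j ⊆ range j) (d : ℕ) (h : ℕ → ℕ → ℝ) (j : ℕ) :
    F Ys d h j = pr d (F Ys d h) (Ys j) (h j) := by
  rw [F]
  refine pr_congr (fun y hy => ?_) _
  rw [dif_pos (mem_range.1 (hYs j hy))]

lemma F_orth (hYs : ∀ j, Ys j ⊆ range j) (d : ℕ) (h : ℕ → ℕ → ℝ) {j y : ℕ} (hy : y ∈ Ys j) :
    dot d (F Ys d h j) (F Ys d h y) = 0 := by
  rw [F_eq hYs d h j]
  exact pr_orth _ _ _ _ hy

lemma F_congr (hYs : ∀ j, Ys j ⊆ range j) (d : ℕ) {h h' : ℕ → ℕ → ℝ} {j : ℕ}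
    (hh : ∀ i ≤ j, h i = h' i) : F Ys d h j = F Ys d h' j := by
  induction j using Nat.strong_induction_on with
  | _ j ih =>
    rw [F_eq hYs, F_eq hYs, hh j le_rfl]
    refine pr_congr (fun y hy => ?_) _
    have hyj := mem_range.1 (hYs j hy)
    exact ih y hyj fun i hi => hh i (by omega)

lemma F_poly (hYs : ∀ j, Ys j ⊆ range j) (d : ℕ) (j t : ℕ) : IsPoly fun h => F Ys d h j t := by
  induction j using Nat.strong_induction_on generalizing t with
  | _ j ih =>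
    have hyj : ∀ y : Ys j, (y : ℕ) < j := fun y => mem_range.1 (hYs j y.2)
    have hg : ∀ a b : Ys j, IsPoly fun h => gram d (F Ys d h) (Ys j) a b := fun a b =>
      IsPoly.dot d (fun t => ih a (hyj a) t) fun t => ih b (hyj b) t
    have : (fun h => F Ys d h j t) = fun h => (gram d (F Ys d h) (Ys j)).det * h j t -
        ∑ i : Ys j, (∑ k : Ys j, (gram d (F Ys d h) (Ys j)).adjugate i k *
          Pool.Agent.W_MP_c44a15_co.dot d (F Ys d h k) (h j)) * F Ys d h i t := by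
      funext h
      rw [F_eq hYs d h j]
      rfl
    rw [this]
    refine ((IsPoly.det hg).mul (IsPoly.coord _ _)).sub (IsPoly.sum _ fun i _ => ?_)
    refine IsPoly.mul (IsPoly.sum _ fun k _ => ?_) (ih i (hyj i) t)
    exact (IsPoly.adjugate hg i k).mul
      (IsPoly.dot d (fun t => ih k (hyj k) t) fun t => IsPoly.coord _ _)

lemma F_of_orth (hYs : ∀ j, Ys j ⊆ range j) (d : ℕ) {h : ℕ → ℕ → ℝ} {j : ℕ}
    (hh : ∀ y ∈ Ys j, dot d (F Ys d h y) (h j) = 0) (t : ℕ) :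
    F Ys d h j t = (gram d (F Ys d h) (Ys j)).det * h j t := by
  rw [F_eq hYs]
  exact pr_of_orth hh t

/-- The Gram block as a polynomial function: its columns are independent iff this is nonzero. -/
noncomputable def blkDet (Ys : ℕ → Finset ℕ) (d : ℕ) (R C : Finset ℕ) (h : ℕ → ℕ → ℝ) : ℝ :=
  ((Matrix.of fun (i : R) (j : C) => dot d (F Ys d h j) (F Ys d h i)).conjTranspose *
    (Matrix.of fun (i : R) (j : C) => dot d (F Ys d h j) (F Ys d h i))).det

lemma blkDet_ne_iff (d : ℕ) (R C : Finset ℕ) (h : ℕ → ℕ → ℝ) :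
    blkDet Ys d R C h ≠ 0 ↔ Inj d (F Ys d h) R C := by
  rw [inj_iff, injective_iff_map_eq_zero, Ne, blkDet, ← Matrix.exists_mulVec_eq_zero_iff]
  push Not
  constructor
  · intro h1 c hc
    by_contra hne
    refine h1 c hne ((Matrix.conjTranspose_mul_self_mulVec_eq_zero _ _).2 ?_)
    exact hc
  · intro h1 c hne hc
    exact hne (h1 c ((Matrix.conjTranspose_mul_self_mulVec_eq_zero _ _).1 hc))

lemma blkDet_poly (hYs : ∀ j, Ys j ⊆ range j) (d : ℕ) (R C : Finset ℕ) :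
    IsPoly (blkDet Ys d R C) := by
  refine IsPoly.det fun i j => ?_
  simp only [Matrix.mul_apply, Matrix.conjTranspose_apply, Matrix.of_apply, star_trivial]
  refine IsPoly.sum _ fun k _ => ?_
  exact (IsPoly.dot d (F_poly hYs d _) (F_poly hYs d _)).mul
    (IsPoly.dot d (F_poly hYs d _) (F_poly hYs d _))

end Pool.Agent.W_MP_c44a15_co
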